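import Pool.Agent.H854.K.Base
import Pool.Agent.H854.SQ.UDefs

/-!
# The sequence of coverings
-/

set_option autoImplicit false

open CategoryTheory AlgebraicGeometry

namespace Pool.Agent.H854.K

/-- The covering `y ^ m - y = φ` of the spectrum of the `k`-algebra `A`. -/
noncomputable def cov (k : Type) [Field k] (m : ℕ) {A : Type} [CommRing A] [Algebra k A] (φ : A) :
    Sch k := aff k (AdjoinRoot (Polynomial.X ^ m - Polynomial.X - Polynomial.C φ))

/-- The covering `y ^ m - y = G_n` over `k`, where `G_n` is the polynomial `univ k n`. -/
noncomputable def seq (k : Type) [Field k] (m n : ℕ) : Sch k := cov k m (SQ.univ k n)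

/-- The scheme is of finite type with an affine bundle with affine total space, and smooth and
proper. -/
def IsSmoothProper {k : Type} [Field k] (X : Sch k) : Prop :=
  IsAdm X ∧ Smooth (str X) ∧ IsProper (str X)

end Pool.Agent.H854.K
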