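import Pool.Agent.H854.K.Sum
import Pool.Agent.H854.K.SeqDefs
import Pool.Agent.H854.SQ.Deg
import Pool.Agent.H854.SQ.TInst

/-!
# The reduction to the members of the sequence
-/

set_option autoImplicit false

open CategoryTheory AlgebraicGeometry

namespace Pool.Agent.H854.K

open SQ AS

variable {k : Type} [Field k]

theorem seq_eq (m n : ℕ) : seq k m n = SQ.seq (pol k m) n := by
  unfold seq cov SQ.seq AS.Cov
  congr 2 <;>
  simp [pol]

/-- From the members of the sequence to all varieties. -/
theorem reduce {Q : Sch k → ℤ → Prop} (hQ : SQ.Transfers Q) (hk : IsPrimeField k) {m : ℕ}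
    (hm : HasSimpleRoots (pol k m)) (h : ∃ᶠ n in Filter.atTop, ∀ d, Q (seq k m n) d) (X : Sch k)
    (hX : IsAdm X) (d : ℤ) : Q X d :=
  hQ.admissible hm hk (by simpa only [seq_eq] using h) X hX d

theorem smooth_seq_two {n : ℕ} (hn : 0 < n) : Smooth (str (seq k 2 n)) := by
  rw [seq_eq]
  exact SQ.smooth_seq_two hn

theorem smooth_seq_prime (p : ℕ) [Fact p.Prime] [CharP k p] {n : ℕ} (hn : 0 < n) :
    Smooth (str (seq k p n)) := by
  rw [seq_eq]
  exact SQ.smooth_seq_prime p hn

theorem isAdm_seq {m : ℕ} (hm : HasSimpleRoots (pol k m)) (n : ℕ) : IsAdm (seq k m n) := by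
  rw [seq_eq]
  exact isAdmissible_seq hm n

theorem isAdm_down {K : Type} [Field K] [Algebra k K] [Module.Finite k K] {X : Sch K}
    (hX : IsAdm X) : IsAdm (down k X) := isAdmissible_down hX

end Pool.Agent.H854.K
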