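import Mathlib

/-!
# Schemes over a field, and Borel–Moore homology theories
-/

set_option autoImplicit false

open CategoryTheory AlgebraicGeometry

noncomputable section

namespace Pool.Agent.H854.K

/-- The affine scheme of the ring `A`. -/
abbrev Sp (A : Type) [CommRing A] : Scheme.{0} := Spec (CommRingCat.of A)

/-- The morphism of affine schemes belonging to a homomorphism of rings. -/
abbrev spc {A B : Type} [CommRing A] [CommRing B] (φ : A →+* B) : Sp B ⟶ Sp A :=
  Spec.map (CommRingCat.ofHom φ)

/-- The image of a morphism of schemes, a set of points. -/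
def im {X Y : Scheme.{0}} (f : X ⟶ Y) : Set Y := Set.range f

/-- The inverse image of a set of points. -/
def pre {X Y : Scheme.{0}} (f : X ⟶ Y) (s : Set Y) : Set X := f ⁻¹' s

/-- `f` is, locally on `B`, the projection from an affine space of dimension `r`: every point of `B`
lies in the image of an open immersion `w : Spec R ⟶ B` over which `f` is the projection
`Spec R[t₁, …, tᵣ] ⟶ Spec R`. -/
def IsAffineBundle (r : ℕ) {E B : Scheme.{0}} (f : E ⟶ B) : Prop :=
  ∀ b : B, ∃ (R : Type) (_ : CommRing R) (w : Sp R ⟶ B) (w' : Sp (MvPolynomial (Fin r) R) ⟶ E),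
    IsOpenImmersion w ∧ b ∈ im w ∧ IsOpenImmersion w' ∧ im w' = pre f (im w) ∧
    w' ≫ f = spc MvPolynomial.C ≫ w

/-- Schemes over the field `k`. -/
abbrev Sch (k : Type) [Field k] : Type 1 := Over (Sp k)

variable {k : Type} [Field k]

/-- Morphisms of schemes over `k`. -/
abbrev Mor (X Y : Sch k) : Type := X ⟶ Y

/-- The composition of morphisms, first `g`, then `f`. -/
abbrev cmp {X Y Z : Sch k} (g : Mor X Y) (f : Mor Y Z) : Mor X Z := g ≫ f

/-- The scheme, without the morphism to the spectrum of `k`. -/
abbrev tot (X : Sch k) : Scheme.{0} := X.left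

/-- The morphism to the spectrum of `k`. -/
abbrev str (X : Sch k) : tot X ⟶ Sp k := X.hom

/-- The morphism of schemes, without the compatibility with the morphisms to the spectrum of `k`. -/
abbrev und {X Y : Sch k} (f : Mor X Y) : tot X ⟶ tot Y := f.left

/-- The scheme `X` over `k` is separated and of finite type. -/
def IsVar (X : Sch k) : Prop :=
  IsSeparated (str X) ∧ LocallyOfFiniteType (str X) ∧ QuasiCompact (str X)

/-- `i` is a closed immersion. -/
def Cl {Z X : Sch k} (i : Mor Z X) : Prop := IsClosedImmersion (und i)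

/-- `j` is an open immersion. -/
def Op {U X : Sch k} (j : Mor U X) : Prop := IsOpenImmersion (und j)

/-- `f` is an affine bundle of rank `r`. -/
def Bun {E B : Sch k} (f : Mor E B) (r : ℕ) : Prop := IsAffineBundle r (und f)

/-- `i` is the inclusion of a closed subscheme and `j` the inclusion of its open complement. -/
def Compl {Z X U : Sch k} (i : Mor Z X) (j : Mor U X) : Prop :=
  Cl i ∧ Op j ∧ im (und i) = (im (und j))ᶜ

/-- `f` is the composition of a flat quasi-finite morphism and an affine bundle of rank `r`; it is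
flat of relative dimension `r`. -/
def Fl {E B : Sch k} (f : Mor E B) (r : ℕ) : Prop :=
  ∃ (P : Sch k) (g : Mor E P) (b : Mor P B), Bun b r ∧ Flat (und g) ∧
    LocallyQuasiFinite (und g) ∧ cmp g b = f

/-- The square with the sides `i' : Z' → E`, `f' : Z' → Z`, `f : E → B`, `i : Z → B` is a fibre
product square. -/
def Cart {Z' E Z B : Sch k} (i' : Mor Z' E) (f' : Mor Z' Z) (f : Mor E B) (i : Mor Z B) : Prop :=
  IsPullback (und i') (und f') (und f) (und i)

variable (k) in
/-- The affine scheme of the `k`-algebra `A`, as a scheme over `k`. -/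
def aff (A : Type) [CommRing A] [Algebra k A] : Sch k :=
  Over.mk (spc (algebraMap k A))

/-- The scheme `X` is of finite type and there is an affine bundle over `X` whose total space is
affine. (By Jouanolou this is true for all quasi-projective schemes.) -/
def IsAdm (X : Sch k) : Prop :=
  IsVar X ∧ ∃ (E : Sch k) (f : Mor E X) (r : ℕ), Bun f r ∧ IsAffine (tot E) ∧ IsVar E

/-- The scheme `X` over the extension `K` of `k` as a scheme over `k`. -/
def down (k : Type) {K : Type} [Field k] [Field K] [Algebra k K] (X : Sch K) :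
    Sch k := Over.mk (str X ≫ spc (algebraMap k K))

variable (k) in
/-- A system of `R`-modules `M X n` for the schemes `X` over `k` and the integers `n` (the
dimension), with the push-forward along closed immersions and the flat pull-back (which shifts the
dimension by the relative dimension). -/
structure Grp (R : Type) [Ring R] where
  M : Sch k → ℤ → ModuleCat.{0} R
  push : ∀ {Z X : Sch k} (i : Mor Z X), Cl i → ∀ n, M Z n →ₗ[R] M X n
  pull : ∀ {E B : Sch k} (f : Mor E B) (r : ℕ), Fl f r → ∀ n n' : ℤ, n' = n + r →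
    (M B n →ₗ[R] M E n')

variable (k) in
/-- A family of such systems, indexed by the integers, with boundary maps. -/
structure Sys (R : Type) [Ring R] where
  g : ℤ → Grp k R
  bd : ∀ (m : ℤ) {Z X U : Sch k} (i : Mor Z X) (j : Mor U X), Compl i j → ∀ n,
    ((g (m + 1)).M U n →ₗ[R] (g m).M Z n)

variable {R : Type} [Ring R]

/-- The push-forward of an element. -/
def Grp.psh (P : Grp k R) {Z X : Sch k} (i : Mor Z X) (hi : Cl i) {n : ℤ} (x : P.M Z n) : P.M X n :=
  P.push i hi n x

/-- The pull-back of an element. -/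
def Grp.pll (P : Grp k R) {E B : Sch k} (f : Mor E B) {r : ℕ} (hf : Fl f r) {n n' : ℤ}
    (e : n' = n + r) (x : P.M B n) : P.M E n' := P.pull f r hf n n' e x

/-- The restriction of an element to an open subscheme. -/
def Grp.rst (P : Grp k R) {U X : Sch k} (j : Mor U X) (hj : Fl j 0) {n : ℤ} (x : P.M X n) :
    P.M U n := P.pll j hj (by simp) x

/-- The boundary of an element. -/
def Sys.bdy (H : Sys k R) (m : ℤ) {Z X U : Sch k} {i : Mor Z X} {j : Mor U X} (h : Compl i j)
    {n : ℤ} (u : (H.g (m + 1)).M U n) : (H.g m).M Z n := H.bd m i j h n u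

/-- The flat pull-back is functorial. -/
def Grp.PullComp (P : Grp k R) : Prop :=
  ∀ {D E B : Sch k} (g : Mor D E) (f : Mor E B) (h : Mor D B) (s r t : ℕ) (hg : Fl g s)
    (hf : Fl f r) (hh : Fl h t) (n n' n'' : ℤ) (e : n' = n + r) (e' : n'' = n' + s)
    (e'' : n'' = n + t), IsVar D → IsVar E → IsVar B → cmp g f = h →
    ∀ x, P.pll h hh e'' x = P.pll g hg e' (P.pll f hf e x)

/-- The flat pull-back commutes with the push-forward along closed immersions. -/
def Grp.BaseChange (P : Grp k R) : Prop :=
  ∀ {Z' E Z B : Sch k} (i' : Mor Z' E) (f' : Mor Z' Z) (f : Mor E B) (i : Mor Z B) (hi' : Cl i')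
    (hi : Cl i) (r : ℕ) (hf' : Fl f' r) (hf : Fl f r) (n n' : ℤ) (e : n' = n + r),
    IsVar E → IsVar B → Cart i' f' f i →
    ∀ x, P.pll f hf e (P.psh i hi x) = P.psh i' hi' (P.pll f' hf' e x)

/-- The pull-back along affine bundles is surjective. -/
def Grp.BundleSurjective (P : Grp k R) : Prop :=
  ∀ {E B : Sch k} (f : Mor E B) (r : ℕ) (hf : Fl f r) (n n' : ℤ) (e : n' = n + r),
    IsVar E → IsVar B → Bun f r → ∀ y, ∃ x, P.pll f hf e x = y

/-- The pull-back along affine bundles is injective. -/
def Grp.BundleInjective (P : Grp k R) : Prop :=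
  ∀ {E B : Sch k} (f : Mor E B) (r : ℕ) (hf : Fl f r) (n n' : ℤ) (e : n' = n + r),
    IsVar E → IsVar B → Bun f r → ∀ x, P.pll f hf e x = 0 → x = 0

/-- For a closed subscheme and its open complement, the kernel of the restriction is the image of the
push-forward. -/
def Grp.IsExact (P : Grp k R) : Prop :=
  ∀ {Z X U : Sch k} (i : Mor Z X) (j : Mor U X) (h : Compl i j) (hj : Fl j 0) (n : ℤ), IsVar X →
    ∀ x : P.M X n, P.rst j hj x = 0 ↔ ∃ z, P.psh i h.1 z = x

/-- For a closed subscheme and its open complement, the restriction is surjective. -/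
def Grp.RestrictionSurjective (P : Grp k R) : Prop :=
  ∀ {Z X U : Sch k} (i : Mor Z X) (j : Mor U X) (_ : Compl i j) (hj : Fl j 0) (n : ℤ), IsVar X →
    ∀ u : P.M U n, ∃ x, P.rst j hj x = u

/-- The properties of the homology groups and of the Chow groups that are used. -/
structure Grp.IsGood (P : Grp k R) : Prop where
  pullComp : P.PullComp
  baseChange : P.BaseChange
  bundleSurj : P.BundleSurjective
  exact : P.IsExact

/-- The long exact sequence of a closed subscheme and its open complement. -/
def Sys.LongExact (H : Sys k R) : Prop :=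
  ∀ (m : ℤ) {Z X U : Sch k} (i : Mor Z X) (j : Mor U X) (h : Compl i j) (hj : Fl j 0) (n : ℤ),
    IsVar X → (∀ u : (H.g (m + 1)).M U n, H.bdy m h u = 0 ↔ ∃ x, (H.g (m + 1)).rst j hj x = u) ∧
      ∀ z : (H.g m).M Z n, (H.g m).psh i h.1 z = 0 ↔ ∃ u, H.bdy m h u = z

/-- The boundary map commutes with the flat pull-back: `Z' ⊆ E ⊇ U'` is the inverse image of
`Z ⊆ X ⊇ U` under `f : E → X`. -/
def Sys.BoundaryPull (H : Sys k R) : Prop :=
  ∀ (m : ℤ) {Z X U Z' E U' : Sch k} (i : Mor Z X) (j : Mor U X) (h : Compl i j)
    (i' : Mor Z' E) (j' : Mor U' E) (h' : Compl i' j') (f : Mor E X) (fZ : Mor Z' Z)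
    (fU : Mor U' U) (r : ℕ) (_ : Fl f r) (hZ : Fl fZ r) (hU : Fl fU r) (n n' : ℤ)
    (e : n' = n + r), IsVar E → IsVar X → Cart i' fZ f i → Cart j' fU f j →
    ∀ x, H.bdy m h' ((H.g (m + 1)).pll fU hU e x) = (H.g m).pll fZ hZ e (H.bdy m h x)

/-- The properties of a Borel–Moore homology theory that are used. -/
structure Sys.IsHomology (H : Sys k R) : Prop where
  good : ∀ m, (H.g m).IsGood
  bundleInj : ∀ m, (H.g m).BundleInjective
  longExact : H.LongExact
  boundaryPull : H.BoundaryPull

end Pool.Agent.H854.K
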