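import Mathlib

/-!
# Direct summands of modules
-/

set_option autoImplicit false

namespace Pool.Agent.H854.K

/-- The module `A` is isomorphic to a direct summand of the module `B`. -/
def IsSummand {R : Type} [Ring R] (A B : ModuleCat.{0} R) : Prop :=
  ∃ (s : A →ₗ[R] B) (r : B →ₗ[R] A), ∀ x, r (s x) = x

/-- The submodule `U` of `V` is isomorphic to a subquotient of `W`. -/
def IsSubquotient {R : Type} [Ring R] {V : ModuleCat.{0} R} (U : Submodule R V)
    (W : ModuleCat.{0} R) : Prop :=
  ∃ (N : Submodule R W) (f : N →ₗ[R] V), LinearMap.range f = U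

end Pool.Agent.H854.K
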