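import Pool.Agent.H854.K.Mach
import Pool.Agent.H854.K.SumDefs

/-!
# Homology groups that are direct summands of others
-/

set_option autoImplicit false

open CategoryTheory AlgebraicGeometry

namespace Pool.Agent.H854.K

open Y138.UC (opn opnι isVariety_opn)
open SQ (emp isEmpty_emp isVariety_emp compl_emp compl_empty)

variable {R : Type} [Ring R]

theorem isSummand_of_decomp {A B D : ModuleCat.{0} R} (s : A →ₗ[R] B) (t : D →ₗ[R] B)
    (h : ∀ b, ∃ a d, s a + t d = b) (h' : ∀ a d, s a + t d = 0 → a = 0) : IsSummand A B := by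
  choose f g hfg using h
  have hu : ∀ a d b, s a + t d = b → f b = a := by
    intro a d b hb
    refine sub_eq_zero.1 (h' (f b - a) (g b - d) ?_)
    rw [map_sub, map_sub]
    have h1 := hfg b
    rw [← hb] at h1 ⊢
    have h2 : s (f (s a + t d)) - s a + (t (g (s a + t d)) - t d) =
      (s (f (s a + t d)) + t (g (s a + t d))) - (s a + t d) := by abel
    rw [h2, h1, sub_self]
  refine ⟨s, { toFun := f, map_add' := fun x y => ?_, map_smul' := fun c x => ?_ }, fun x => ?_⟩
  · refine hu (f x + f y) (g x + g y) _ ?_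
    rw [map_add, map_add]
    have h2 : s (f x) + s (f y) + (t (g x) + t (g y)) = s (f x) + t (g x) + (s (f y) + t (g y)) := by
      abel
    rw [h2, hfg, hfg]
  · refine hu (c • f x) (c • g x) _ ?_
    rw [map_smul, map_smul, ← smul_add, hfg]
  · exact hu x 0 _ (by rw [map_zero, add_zero])

theorem isSummand_of_bijective {A B D : ModuleCat.{0} R} (s : A →ₗ[R] B) (j : B →ₗ[R] D)
    (b : A →ₗ[R] D) (hb : Function.Bijective b) (h : ∀ x, j (s x) = b x) : IsSummand A B := by
  refine ⟨s, (LinearEquiv.ofBijective b hb).symm.toLinearMap ∘ₗ j, fun x => ?_⟩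
  rw [LinearMap.comp_apply, h]
  exact (LinearEquiv.ofBijective b hb).symm_apply_apply x

theorem IsSummand.trans {A B C : ModuleCat.{0} R} (h : IsSummand A B) (h' : IsSummand B C) :
    IsSummand A C := by
  obtain ⟨s, r, hr⟩ := h
  obtain ⟨s', r', hr'⟩ := h'
  refine ⟨s' ∘ₗ s, r ∘ₗ r', fun x => ?_⟩
  rw [LinearMap.comp_apply, LinearMap.comp_apply, hr', hr]

variable {k : Type} [Field k] {H : Sys k R} (hH : H.IsHomology)

theorem isOp_id (X : Sch k) : Op (𝟙 X) := SQ.isOp_id X

theorem isCl_id (X : Sch k) : Cl (𝟙 X) := SQ.isCl_id X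

theorem fl_id (X : Sch k) : Fl (𝟙 X) 0 := .of_open (isOp_id X)

theorem pull_id {P : Grp k R} (hP : P.IsGood) {X : Sch k} (vX : IsVar X) (n : ℤ)
    (x : P.M X n) : P.pull (𝟙 X) 0 (fl_id X) n n (by simp) x = x := by
  obtain ⟨y, rfl⟩ := hP.bs (𝟙 X) 0 (fl_id X) n n (by simp) vX vX (AS.isBun_id X) x
  exact (hP.pc (𝟙 X) (𝟙 X) (𝟙 X) 0 0 0 (fl_id X) (fl_id X) (fl_id X)
    n n n (by simp) (by simp) (by simp) vX vX vX (Category.id_comp _) y).symm

include hH in
theorem subsingleton_of_isEmpty {X : Sch k} (vX : IsVar X) (h : IsEmpty X.left) (m n : ℤ) :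
    Subsingleton ((H.g m).M X n) := by
  refine ⟨fun x y => ?_⟩
  have h1 : ∀ x : (H.g m).M X n, x = 0 := by
    intro x
    have hp : (H.g m).push (𝟙 X) (isCl_id X) n x = 0 := by
      have h2 := ((hH.good m).ex (𝟙 X) (𝟙 X) (compl_empty h) (fl_id X) n vX
        ((H.g m).push (𝟙 X) (isCl_id X) n x)).2 ⟨x, rfl⟩
      rwa [pull_id (hH.good m) vX] at h2
    obtain ⟨y, hy⟩ := (hH.le2 m (𝟙 X) (𝟙 X) (compl_empty h) (fl_id X) n vX x).1 hp
    have h3 := (hH.le1 m (𝟙 X) (𝟙 X) (compl_empty h) (fl_id X) n vX y).2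
      ⟨y, pull_id (hH.good (m + 1)) vX n y⟩
    rw [← hy, h3]
  rw [h1 x, h1 y]

include hH in
/-- The push-forward along the identity is injective. -/
theorem push_id_inj {X : Sch k} (vX : IsVar X) (m n : ℤ) (x : (H.g m).M X n)
    (hx : (H.g m).push (𝟙 X) (isCl_id X) n x = 0) : x = 0 := by
  obtain ⟨y, hy⟩ := (hH.le2 m (𝟙 X) (opnι X ⊥) (compl_emp X) (.of_open (compl_emp X).2.1)
    n vX x).1 hx
  have := subsingleton_of_isEmpty hH (isVariety_emp vX) (isEmpty_emp X) (m + 1) n
  have h0 : y = 0 := Subsingleton.elim (α := ((H.g (m + 1)).M (emp X) n)) _ _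
  rw [← hy, h0, map_zero]

include hH in
/-- The push-forward along the identity is surjective. -/
theorem push_id_surj {X : Sch k} (vX : IsVar X) (m n : ℤ) (x : (H.g m).M X n) :
    ∃ y, (H.g m).push (𝟙 X) (isCl_id X) n y = x := by
  have := subsingleton_of_isEmpty hH (isVariety_emp vX) (isEmpty_emp X) m n
  exact ((hH.good m).ex (𝟙 X) (opnι X ⊥) (compl_emp X) (.of_open (compl_emp X).2.1) n vX x).1
    (Subsingleton.elim (α := ((H.g m).M (emp X) n)) _ _)

/-- Push-forward and restriction for an open and closed subscheme. -/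
theorem pull_push {P : Grp k R} (hP : P.IsGood) {Z X : Sch k} (i : Z ⟶ X) (hc : Cl i)
    (ho : Op i) (vZ : IsVar Z) (vX : IsVar X) (n : ℤ) (x : P.M Z n) :
    P.pull i 0 (.of_open ho) n n (by simp) (P.push i hc n x) = P.push (𝟙 Z) (isCl_id Z) n x := by
  have : IsOpenImmersion i.left := ho
  have h1 : Cart (𝟙 Z) (𝟙 Z) i i := IsKernelPair.id_of_mono i.left
  rw [hP.bc (𝟙 Z) (𝟙 Z) i i (isCl_id Z) hc 0 (fl_id Z) (.of_open ho) n n (by simp)
    vZ vX h1 x, pull_id hP vZ]

include hH in
theorem pull_bijective (m : ℤ) {E B : Sch k} (f : E ⟶ B) (r : ℕ) (hf : Fl f r) (n n' : ℤ)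
    (e : n' = n + r) (vE : IsVar E) (vB : IsVar B) (b : Bun f r) :
    Function.Bijective ((H.g m).pull f r hf n n' e) :=
  ⟨(injective_iff_map_eq_zero _).2 (hH.bi m f r hf n n' e vE vB b),
    (hH.good m).bs f r hf n n' e vE vB b⟩

/-- A property of modules, which may depend on an integer, and is inherited by direct summands. -/
def Inherited (A : ℤ → ModuleCat.{0} R → Prop) : Prop :=
  ∀ m V W, IsSummand V W → A m W → A m V

include hH in
/-- A property of modules that is inherited by direct summands gives a statement on the homology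
that can be transferred. -/
theorem transfers {A : ℤ → ModuleCat.{0} R → Prop} (hA : Inherited A) :
    SQ.Transfers (k := k) fun X n => ∀ m, A m ((H.g m).M X n) where
  ofOpen := by
    intro D E Z j hj f d hf b hb e0 vD vE vZ n n' e h m
    refine hA m _ _ ?_ (h m)
    exact isSummand_of_bijective ((H.g m).pull f d hf n n' e)
      ((H.g m).pull j 0 (.of_open hj) n' n' (by simp)) ((H.g m).pull b d (.of_bun hb) n n' e)
      (pull_bijective hH m b d (.of_bun hb) n n' e vD vZ hb) fun x =>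
        ((hH.good m).pc j f b 0 d d (.of_open hj) hf (.of_bun hb) n n' n' e (by simp) e vD vE vZ
          e0 x).symm
  ofConfig := by
    intro Z S B C Y V C' C0 B' i j iY jY π πC πV i' j0 b0 a b d r s c N hS n n' e hn h m
    refine hA m _ _ ?_ (h m)
    exact isSummand_of_decomp
      ((H.g m).push iY c.hY.1 n' ∘ₗ (H.g m).push i' c.hC.1 n')
      ((H.g m).pull π d c.hπ n n' e) (decomp c hH m n n' e) (disj c hH m n n' e)
  ofClopen := by
    intro Z X i hc ho vZ vX n h m
    refine hA m _ _ ?_ (h m)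
    exact isSummand_of_bijective ((H.g m).push i hc n)
      ((H.g m).pull i 0 (.of_open ho) n n (by simp)) ((H.g m).push (𝟙 Z) (isCl_id Z) n)
      ⟨(injective_iff_map_eq_zero _).2 (push_id_inj hH vZ m n), push_id_surj hH vZ m n⟩
      (pull_push (hH.good m) i hc ho vZ vX n)

end Pool.Agent.H854.K
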