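import Pool.Agent.H854.K.FrobDefs
import Pool.Agent.H854.K.Sum

/-!
# Vector spaces with an endomorphism
-/

set_option autoImplicit false

namespace Pool.Agent.H854.K

variable {F : Type} [Field F]

theorem df_eq {V : FMod F} (x : V) : df x = (Polynomial.X - 1 : Polynomial F) • x := by
  rw [sub_smul, one_smul]
  rfl

theorem df_iterate {V : FMod F} (N : ℕ) (x : V) :
    df^[N] x = ((Polynomial.X - 1 : Polynomial F) ^ N) • x := by
  induction N with
  | zero => rw [pow_zero, one_smul]; rfl
  | succ N ih => rw [Function.iterate_succ_apply', ih, df_eq, smul_smul, pow_succ']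

theorem fr_iterate {V : FMod F} (j : ℕ) (x : V) :
    fr^[j] x = ((Polynomial.X : Polynomial F) ^ j) • x := by
  induction j with
  | zero => rw [pow_zero, one_smul]; rfl
  | succ j ih => rw [Function.iterate_succ_apply', ih, fr, smul_smul, pow_succ']

theorem killed_iff {V : FMod F} (N : ℕ) (x : V) :
    Killed N x ↔ ((Polynomial.X - 1 : Polynomial F) ^ N) • x = 0 := by rw [Killed, df_iterate]

theorem killed_one {V : FMod F} (x : V) : Killed 1 x ↔ df x = 0 := Iff.rfl

theorem killed_map {V W : FMod F} (b : V →ₗ[Polynomial F] W) {N : ℕ} {x : V} (h : Killed N x) :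
    Killed N (b x) := by
  rw [killed_iff] at h ⊢
  rw [← map_smul, h, map_zero]

theorem Semi.of_killed {V : FMod F} (h : Semi V) {N : ℕ} {x : V} (hx : Killed N x) :
    Killed 1 x := by
  induction N generalizing x with
  | zero =>
    have hx : x = 0 := hx
    rw [hx, killed_iff, smul_zero]
  | succ N ih =>
    refine h x (ih ?_)
    rw [Killed, Function.iterate_succ_apply] at hx
    exact hx

theorem Semi.of_summand {V W : FMod F} (h : IsSummand V W) (hW : Semi W) : Semi V := by
  obtain ⟨s, r, hsr⟩ := h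
  intro x hx
  have h1 := killed_map r (hW (s x) (killed_map s hx))
  rwa [hsr] at h1

theorem Semi.of_covers {V W : FMod F} (h : Covers V W) (hV : Semi V) : Semi W := by
  obtain ⟨b, hb⟩ := h
  intro x hx
  obtain ⟨x', N', hx', rfl⟩ := hb x 2 hx
  exact killed_map b (hV.of_killed hx')

theorem Semi.of_induced [CharZero F] {d : ℕ} (hd : 0 < d) {V W : FMod F} (h : IsInduced d V W)
    (hV : Semi V) : Semi W := by
  obtain ⟨res, hadd, hlin, hbij⟩ := h
  have hfr : ∀ x, res (fr^[d] x) = fr (res x) := fun x => by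
    rw [fr_iterate, fr, ← hlin, Polynomial.X_comp]
  have hzero : res 0 = 0 := by
    have h1 := hadd 0 0
    rw [add_zero] at h1
    exact left_eq_add.1 h1
  have hsub : ∀ x y, res (x - y) = res x - res y := fun x y => by
    rw [eq_sub_iff_add_eq, ← hadd, sub_add_cancel]
  intro v hv
  set w := df v with hw
  have hdF : (d : F) ≠ 0 := Nat.cast_ne_zero.2 hd.ne'
  have hfv : fr v = v + w := by rw [hw, df]; abel
  have hfw : fr w = w := by
    have h1 : df w = 0 := hv
    rwa [df, sub_eq_zero] at h1
  let c : ℕ → Polynomial F := fun j => Polynomial.C ((j : F) / d)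
  obtain ⟨x, hx⟩ := hbij.2 fun j => v + c j • w
  have hfc : ∀ j, fr (v + c j • w) = v + c (j + d) • w := by
    intro j
    have h1 : fr (v + c j • w) = fr v + c j • fr w := by
      simp only [fr, smul_add, smul_smul, mul_comm]
    have h2 : c (j + d) = 1 + c j := by
      simp only [c]
      rw [Nat.cast_add, add_div, div_self hdF, add_comm, map_add, map_one]
    rw [h1, hfv, hfw, h2, add_smul, one_smul]
    abel
  have hall : ∀ j, res (fr^[j] x) = v + c j • w := by
    intro j
    induction j using Nat.strong_induction_on with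
    | _ j ih =>
      by_cases hj : j < d
      · exact congrFun hx ⟨j, hj⟩
      · obtain ⟨a, rfl⟩ := Nat.exists_eq_add_of_le (not_lt.1 hj)
        rw [Function.iterate_add_apply, hfr, ih a (by omega), hfc, add_comm a]
  have hstep : ∀ (j : ℕ) (y : V), fr^[j] (df y) = fr^[j + 1] y - fr^[j] y := by
    intro j y
    rw [fr_iterate, fr_iterate, fr_iterate, df, smul_sub, fr, smul_smul, ← pow_succ]
  have hdif : ∀ j, res (fr^[j] (df x)) = (Polynomial.C ((1 : F) / d)) • w := by
    intro j
    rw [hstep, hsub, hall, hall, add_sub_add_left_eq_sub, ← sub_smul]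
    congr 1
    simp only [c]
    rw [← map_sub, Nat.cast_add, add_div, add_sub_cancel_left, Nat.cast_one]
  have h0 : Killed 2 x := by
    change df (df x) = 0
    refine hbij.1 ?_
    funext j
    have h2 : fr^[(j : ℕ)] (0 : V) = 0 := by rw [fr_iterate, smul_zero]
    change res (fr^[(j : ℕ)] (df (df x))) = res (fr^[(j : ℕ)] 0)
    rw [hstep, hsub, hdif, hdif, sub_self, h2, hzero]
  have h1 : df x = 0 := hV x h0
  have h3 := hdif 0
  rw [h1, fr_iterate, smul_zero, hzero] at h3
  have h4 := congrArg (fun y => (Polynomial.C (d : F)) • y) h3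
  simp only [smul_zero, smul_smul, ← Polynomial.C_mul, mul_one_div_cancel hdF, map_one,
    one_smul] at h4
  exact h4.symm

theorem ActsSemisimply.of_summand {V W : FMod F} (h : IsSummand V W) (hW : ActsSemisimply W) :
    ActsSemisimply V := by
  obtain ⟨s, r, hsr⟩ := h
  obtain ⟨P, hP, h1⟩ := hW
  exact ⟨P, hP, fun x => by rw [← hsr (P • x), map_smul, h1, map_zero]⟩

theorem ActsSemisimply.of_subquotients {V : FMod F} {ι : Type} [Finite ι]
    (U : ι → Submodule (Polynomial F) V) (hU : ⨆ a, U a = ⊤)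
    (h : ∀ a, ∃ W : FMod F, ActsSemisimply W ∧ IsSubquotient (U a) W) : ActsSemisimply V := by
  classical
  have := Fintype.ofFinite ι
  have h1 : ∀ a, ∃ P : Polynomial F, Squarefree P ∧ ∀ x ∈ U a, P • x = 0 := by
    intro a
    obtain ⟨W, ⟨P, hP, h1⟩, N, f, hf⟩ := h a
    refine ⟨P, hP, fun x hx => ?_⟩
    rw [← hf] at hx
    obtain ⟨y, rfl⟩ := hx
    have h2 : P • y = 0 := Subtype.ext (h1 y)
    rw [← map_smul, h2, map_zero]
  choose P hP hP' using h1
  have h0 : ∏ a, P a ≠ 0 := Finset.prod_ne_zero_iff.2 fun a _ => (hP a).ne_zero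
  refine ⟨UniqueFactorizationMonoid.radical (∏ a, P a),
    UniqueFactorizationMonoid.squarefree_radical, fun x => ?_⟩
  have h2 : ∀ a, P a ∣ UniqueFactorizationMonoid.radical (∏ a, P a) := fun a =>
    (UniqueFactorizationMonoid.dvd_radical_iff (hP a).isRadical h0).2
      (Finset.dvd_prod_of_mem _ (Finset.mem_univ a))
  have h3 : (⊤ : Submodule (Polynomial F) V) ≤
      LinearMap.ker (LinearMap.lsmul (Polynomial F) V
        (UniqueFactorizationMonoid.radical (∏ a, P a))) := by
    rw [← hU]
    refine iSup_le fun a y hy => ?_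
    rw [LinearMap.mem_ker, LinearMap.lsmul_apply]
    obtain ⟨c, hc⟩ := h2 a
    rw [hc, mul_comm, ← smul_smul, hP' a y hy, smul_zero]
  have h4 := h3 (x := x) trivial
  rwa [LinearMap.mem_ker, LinearMap.lsmul_apply] at h4

/-- A squarefree polynomial divides a squarefree polynomial in `t ^ d`. -/
theorem exists_comp (d : ℕ) {P : Polynomial F} (hP : Squarefree P) :
    ∃ Q : Polynomial F, Squarefree Q ∧ P ∣ Q.comp (Polynomial.X ^ d) := by
  classical
  have hP0 := hP.ne_zero
  have hfin : Module.Finite F (AdjoinRoot P) := (AdjoinRoot.powerBasis hP0).finite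
  have hint : IsIntegral F (AdjoinRoot.root P ^ d) := Algebra.IsIntegral.isIntegral _
  set N := minpoly F (AdjoinRoot.root P ^ d) with hN
  have hN0 : N ≠ 0 := minpoly.ne_zero hint
  have h1 : P ∣ N.comp (Polynomial.X ^ d) := by
    rw [← AdjoinRoot.mk_eq_zero, ← AdjoinRoot.aeval_eq, Polynomial.aeval_comp, map_pow,
      Polynomial.aeval_X]
    exact minpoly.aeval F _
  obtain ⟨e, c, hc⟩ := UniqueFactorizationMonoid.exists_dvd_radical_self_pow hN0
  refine ⟨UniqueFactorizationMonoid.radical N, UniqueFactorizationMonoid.squarefree_radical, ?_⟩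
  have h2 : P ∣ ((UniqueFactorizationMonoid.radical N).comp (Polynomial.X ^ d)) ^ (e + 1) := by
    refine h1.trans ?_
    rw [← Polynomial.pow_comp, pow_succ, hc, mul_assoc, Polynomial.mul_comp]
    exact dvd_mul_right _ _
  exact (hP.dvd_pow_iff_dvd (Nat.succ_ne_zero e)).1 h2

theorem ActsSemisimply.of_induced {d : ℕ} (hd : 0 < d) {V W : FMod F} (h : IsInduced d V W)
    (hV : ActsSemisimply V) : ActsSemisimply W := by
  obtain ⟨res, hadd, hlin, hbij⟩ := h
  obtain ⟨P, hP, h1⟩ := hV
  obtain ⟨Q, hQ, hPQ⟩ := exists_comp d hP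
  refine ⟨Q, hQ, fun w => ?_⟩
  obtain ⟨x, hx⟩ := hbij.2 fun _ => w
  have h2 : res x = w := congrFun hx ⟨0, hd⟩
  have hzero : res 0 = 0 := by
    have h1 := hadd 0 0
    rw [add_zero] at h1
    exact left_eq_add.1 h1
  obtain ⟨c, hc⟩ := hPQ
  rw [← h2, ← hlin, hc, mul_comm, ← smul_smul, h1, smul_zero, hzero]

end Pool.Agent.H854.K
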