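import Mathlib

/-!
# Vector spaces with an endomorphism (the Frobenius), as modules over `F[t]`
-/

set_option autoImplicit false

noncomputable section

namespace Pool.Agent.H854.K

/-- Modules over the polynomial ring `F[t]`: vector spaces over `F` with an endomorphism, the action
of `t`, which we call the Frobenius. -/
abbrev FMod (F : Type) [Field F] : Type 1 := ModuleCat.{0} (Polynomial F)

variable {F : Type} [Field F]

/-- The Frobenius. -/
def fr {V : FMod F} (x : V) : V := (Polynomial.X : Polynomial F) • x

/-- The Frobenius minus the identity. -/
def df {V : FMod F} (x : V) : V := fr x - x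

/-- The power `N` of the Frobenius minus the identity is zero on `x`. -/
def Killed {V : FMod F} (N : ℕ) (x : V) : Prop := df^[N] x = 0

/-- The eigenvalue `1` of the Frobenius is semisimple: its generalized eigenvectors are
eigenvectors. -/
def Semi (V : FMod F) : Prop := ∀ x : V, Killed 2 x → Killed 1 x

/-- There is a linear map from `V` to `W` that commutes with the Frobenius, such that all generalized
eigenvectors for the eigenvalue `1` in `W` are images of such elements of `V`. -/
def Covers (V W : FMod F) : Prop :=
  ∃ b : V →ₗ[Polynomial F] W, ∀ (x : W) (N : ℕ), Killed N x → ∃ (x' : V) (N' : ℕ),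
    Killed N' x' ∧ b x' = x

/-- `V` is induced from `W`: it is the `d`-fold sum of `W`, permuted cyclically by the Frobenius `φ`
of `V`, such that `φ ^ d` is the Frobenius of `W`. Here `res` is the projection to the first summand;
it is linear over `F` and takes `φ ^ d` to the Frobenius, that is, it is linear if `F[t]` acts on
`V` by substituting `t ^ d` for `t`. -/
def IsInduced (d : ℕ) (V W : FMod F) : Prop :=
  ∃ res : V → W, (∀ x y, res (x + y) = res x + res y) ∧
    (∀ (P : Polynomial F) (x : V), res (P.comp (Polynomial.X ^ d) • x) = P • res x) ∧
    Function.Bijective fun x (j : Fin d) => res (fr^[j] x)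

/-- The Frobenius acts semisimply: it is annihilated by a polynomial without multiple factors. -/
def ActsSemisimply (V : FMod F) : Prop :=
  ∃ P : Polynomial F, Squarefree P ∧ ∀ x : V, P • x = 0

end Pool.Agent.H854.K
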