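import Pool.Agent.H854.K.SeqDefs

/-!
# One dimension for each member of the sequence
-/

set_option autoImplicit false

namespace Pool.Agent.H854.K

/-- The dimension of the cycles that are considered on the covering `y ^ 2 - y = G_m`, which has the
dimension `6 m ^ 3 + 2 m ^ 2 + 4 m`. -/
def index (m : ℕ) : ℕ := m / 2 + (4 * m ^ 3 + m ^ 2 + 2 * m)

end Pool.Agent.H854.K
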