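import Pool.Agent.H854.K.Base
import Pool.Agent.H854.SQ.Clop

/-!
# The homology of a space with a flat map that is a bundle over an open subset
-/

set_option autoImplicit false

open CategoryTheory AlgebraicGeometry

namespace Pool.Agent.H854.K

variable {k : Type} [Field k]

theorem isVar_iff {X : Sch k} : IsVar X ↔ Y138.UC.IsVariety X := Iff.rfl

theorem isAdm_iff {X : Sch k} : IsAdm X ↔ AS.IsAdmissible X := Iff.rfl

theorem Fl.of_bun {E B : Sch k} {f : E ⟶ B} {r : ℕ} (h : Bun f r) : Fl f r :=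
  AS.IsFlatDim.of_bun h

theorem Fl.of_open {E B : Sch k} {f : E ⟶ B} (h : Op f) : Fl f 0 := AS.IsFlatDim.of_open h

theorem Fl.comp_open {D E B : Sch k} {j : D ⟶ E} (hj : Op j) {f : E ⟶ B} {r : ℕ} (h : Fl f r) :
    Fl (j ≫ f) r := by
  obtain ⟨P, g, b, hb, h1, h2, rfl⟩ := h
  have h3 : IsOpenImmersion j.left := hj
  have h4 : Flat g.left := h1
  have h5 : LocallyQuasiFinite g.left := h2
  refine ⟨P, j ≫ g, b, hb, ?_, ?_, Category.assoc _ _ _⟩
  · change Flat (j.left ≫ g.left)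
    infer_instance
  · change LocallyQuasiFinite (j.left ≫ g.left)
    infer_instance

variable {R : Type} [Ring R] {P : Grp k R}

namespace Grp.IsGood

variable (hP : P.IsGood)
include hP

theorem pc {D E B : Sch k} (g : D ⟶ E) (f : E ⟶ B) (h : D ⟶ B) (s r t : ℕ) (hg : Fl g s)
    (hf : Fl f r) (hh : Fl h t) (n n' n'' : ℤ) (e : n' = n + r) (e' : n'' = n' + s)
    (e'' : n'' = n + t) (vD : IsVar D) (vE : IsVar E) (vB : IsVar B) (c : g ≫ f = h)
    (x : P.M B n) :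
    P.pull h t hh n n'' e'' x = P.pull g s hg n' n'' e' (P.pull f r hf n n' e x) :=
  hP.pullComp g f h s r t hg hf hh n n' n'' e e' e'' vD vE vB c x

theorem bc {Z' E Z B : Sch k} (i' : Z' ⟶ E) (f' : Z' ⟶ Z) (f : E ⟶ B) (i : Z ⟶ B) (hi' : Cl i')
    (hi : Cl i) (r : ℕ) (hf' : Fl f' r) (hf : Fl f r) (n n' : ℤ) (e : n' = n + r)
    (vE : IsVar E) (vB : IsVar B) (c : Cart i' f' f i) (x : P.M Z n) :
    P.pull f r hf n n' e (P.push i hi n x) = P.push i' hi' n' (P.pull f' r hf' n n' e x) :=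
  hP.baseChange i' f' f i hi' hi r hf' hf n n' e vE vB c x

theorem bs {E B : Sch k} (f : E ⟶ B) (r : ℕ) (hf : Fl f r) (n n' : ℤ) (e : n' = n + r)
    (vE : IsVar E) (vB : IsVar B) (b : Bun f r) (y : P.M E n') :
    ∃ x, P.pull f r hf n n' e x = y := hP.bundleSurj f r hf n n' e vE vB b y

theorem ex {Z X U : Sch k} (i : Z ⟶ X) (j : U ⟶ X) (h : Compl i j) (hj : Fl j 0) (n : ℤ)
    (vX : IsVar X) (x : P.M X n) :
    P.pull j 0 hj n n (by simp) x = 0 ↔ ∃ z, P.push i h.1 n z = x := hP.exact i j h hj n vX x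

end Grp.IsGood

variable {H : Sys k R}

namespace Sys.IsHomology

variable (hH : H.IsHomology)
include hH

theorem bi (m : ℤ) {E B : Sch k} (f : E ⟶ B) (r : ℕ) (hf : Fl f r) (n n' : ℤ) (e : n' = n + r)
    (vE : IsVar E) (vB : IsVar B) (b : Bun f r) (x : (H.g m).M B n)
    (h : (H.g m).pull f r hf n n' e x = 0) : x = 0 := hH.bundleInj m f r hf n n' e vE vB b x h

theorem le1 (m : ℤ) {Z X U : Sch k} (i : Z ⟶ X) (j : U ⟶ X) (h : Compl i j) (hj : Fl j 0) (n : ℤ)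
    (vX : IsVar X) (u : (H.g (m + 1)).M U n) :
    H.bd m i j h n u = 0 ↔ ∃ x, (H.g (m + 1)).pull j 0 hj n n (by simp) x = u :=
  (hH.longExact m i j h hj n vX).1 u

theorem le2 (m : ℤ) {Z X U : Sch k} (i : Z ⟶ X) (j : U ⟶ X) (h : Compl i j) (hj : Fl j 0) (n : ℤ)
    (vX : IsVar X) (z : (H.g m).M Z n) :
    (H.g m).push i h.1 n z = 0 ↔ ∃ u, H.bd m i j h n u = z :=
  (hH.longExact m i j h hj n vX).2 z

theorem bp (m : ℤ) {Z X U Z' E U' : Sch k} (i : Z ⟶ X) (j : U ⟶ X) (h : Compl i j)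
    (i' : Z' ⟶ E) (j' : U' ⟶ E) (h' : Compl i' j') (f : E ⟶ X) (fZ : Z' ⟶ Z)
    (fU : U' ⟶ U) (r : ℕ) (hf : Fl f r) (hZ : Fl fZ r) (hU : Fl fU r) (n n' : ℤ)
    (e : n' = n + r) (vE : IsVar E) (vX : IsVar X) (c : Cart i' fZ f i) (c' : Cart j' fU f j)
    (x : (H.g (m + 1)).M U n) :
    H.bd m i' j' h' n' ((H.g (m + 1)).pull fU r hU n n' e x) =
      (H.g m).pull fZ r hZ n n' e (H.bd m i j h n x) :=
  hH.boundaryPull m i j h i' j' h' f fZ fU r hf hZ hU n n' e vE vX c c' x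

end Sys.IsHomology

section

variable {Z S B C Y V C' C0 B' : Sch k} {i : Z ⟶ S} {j : B ⟶ S} {iY : C ⟶ Y} {jY : V ⟶ Y}
    {π : Y ⟶ S} {πC : C ⟶ Z} {πV : V ⟶ B} {i' : C' ⟶ C} {j0 : C0 ⟶ C} {b0 : C0 ⟶ Z} {a : V ⟶ B'}
    {b : B' ⟶ B} {d r s : ℕ} (c : AS.Config i j iY jY π πC πV i' j0 b0 a b d r s)
include c

/-- The composition of the pull-backs from `Z` to `C` and from `C` to `C0`. -/
theorem pull_C0 (hP : P.IsGood) (n n' : ℤ) (e : n' = n + d) (x : P.M Z n) :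
    P.pull j0 0 c.fj0 n' n' (by simp) (P.pull πC d c.hπC n n' e x) =
      P.pull b0 d (.of_bun c.hb0) n n' e x :=
  (hP.pc j0 πC b0 0 d d c.fj0 c.hπC (.of_bun c.hb0) n n' n' e (by simp) e c.vC0 c.vC c.vZ
    c.e0 x).symm

/-- Elements on `C0` extend to `C`. -/
theorem C0_surj (hP : P.IsGood) (n n' : ℤ) (e : n' = n + d) (x : P.M C0 n') :
    ∃ z : P.M Z n, P.pull j0 0 c.fj0 n' n' (by simp) (P.pull πC d c.hπC n n' e z) = x := by
  obtain ⟨z, hz⟩ := hP.bs b0 d (.of_bun c.hb0) n n' e c.vC0 c.vZ c.hb0 x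
  exact ⟨z, (pull_C0 c hP n n' e z).trans hz⟩

/-- Elements on `V` are pull-backs. -/
theorem V_surj (hP : P.IsGood) (n n' : ℤ) (e : n' = n + d) (x : P.M V n') :
    ∃ z : P.M B n, P.pull πV d c.hπV n n' e z = x := by
  obtain ⟨y, hy⟩ := hP.bs a s (.of_bun c.ha) (n + r) n' (by rw [e, c.hd]; push_cast; ring)
    c.vV c.vB' c.ha x
  obtain ⟨z, hz⟩ := hP.bs b r (.of_bun c.hb) n (n + r) rfl c.vB' c.vB c.hb y
  refine ⟨z, ?_⟩
  rw [hP.pc a b πV s r d (.of_bun c.ha) (.of_bun c.hb) c.hπV n (n + r) n' rfl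
    (by rw [e, c.hd]; push_cast; ring) e c.vV c.vB' c.vB c.hab z, hz, hy]

/-- Elements on `Y` that vanish on `V` come from `C'`. -/
theorem surj_of (hP : P.IsGood) (n n' : ℤ) (e : n' = n + d) (hs : Subsingleton (P.M S n))
    (y : P.M Y n') (hy : P.pull jY 0 c.fjY n' n' (by simp) y = 0) :
    ∃ x : P.M C' n', P.push iY c.hY.1 n' (P.push i' c.hC.1 n' x) = y := by
  obtain ⟨x, rfl⟩ := (hP.ex iY jY c.hY c.fjY n' c.vY y).1 hy
  obtain ⟨z, hz⟩ := C0_surj c hP n n' e (P.pull j0 0 c.fj0 n' n' (by simp) x)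
  have h1 : P.push iY c.hY.1 n' (P.pull πC d c.hπC n n' e z) = 0 := by
    rw [← hP.bc iY πC π i c.hY.1 c.hS.1 d c.hπC c.hπ n n' e c.vY c.vS c.cC z,
      Subsingleton.elim (P.push i c.hS.1 n z) 0, map_zero]
  have h2 : P.pull j0 0 c.fj0 n' n' (by simp) (x - P.pull πC d c.hπC n n' e z) = 0 := by
    rw [map_sub, hz, sub_self]
  obtain ⟨x', hx'⟩ := (hP.ex i' j0 c.hC c.fj0 n' c.vC _).1 h2
  refine ⟨x', ?_⟩
  rw [hx', map_sub, h1, sub_zero]

/-- Elements on `Y` come from `C'`, if those on `S` vanish and restriction is surjective. -/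
theorem chow_surj (hP : P.IsGood) (hr : P.RestrictionSurjective) (n n' : ℤ) (e : n' = n + d)
    (hs : Subsingleton (P.M S n)) (y : P.M Y n') :
    ∃ x : P.M C' n', P.push iY c.hY.1 n' (P.push i' c.hC.1 n' x) = y := by
  apply surj_of c hP n n' e hs
  obtain ⟨β, hβ⟩ := V_surj c hP n n' e (P.pull jY 0 c.fjY n' n' (by simp) y)
  obtain ⟨σ, hσ⟩ := hr i j c.hS c.fj n c.vS β
  change P.pull j 0 c.fj n n (by simp) σ = β at hσ
  rw [← hβ, ← hσ, Subsingleton.elim σ 0, map_zero, map_zero]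

variable (hH : H.IsHomology)
include hH

/-- The boundary of an element of `V`, when it is restricted to `C0`. -/
theorem bd_V (m n n' : ℤ) (e : n' = n + d) (β : (H.g (m + 1)).M B n) :
    H.bd m iY jY c.hY n' ((H.g (m + 1)).pull πV d c.hπV n n' e β) =
      (H.g m).pull πC d c.hπC n n' e (H.bd m i j c.hS n β) :=
  hH.bp m i j c.hS iY jY c.hY π πC πV d c.hπ c.hπC c.hπV n n' e c.vY c.vS c.cC c.cV β

/-- The homology of `C'` injects into that of `C`. -/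
theorem inj_C (m n n' : ℤ) (e : n' = n + d) (x : (H.g m).M C' n')
    (h1 : (H.g m).push i' c.hC.1 n' x = 0) : x = 0 := by
  obtain ⟨y, hy⟩ := (hH.le2 m i' j0 c.hC c.fj0 n' c.vC _).1 h1
  obtain ⟨z, rfl⟩ := C0_surj c (hH.good (m + 1)) n n' e y
  rw [← hy]
  exact (hH.le1 m i' j0 c.hC c.fj0 n' c.vC _).2 ⟨_, rfl⟩

/-- The homology of `C'` injects into that of `Y`. -/
theorem inj (m n n' : ℤ) (e : n' = n + d) (x : (H.g m).M C' n')
    (hx : (H.g m).push iY c.hY.1 n' ((H.g m).push i' c.hC.1 n' x) = 0) : x = 0 := by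
  have h1 : (H.g m).push i' c.hC.1 n' x = 0 := by
    obtain ⟨y, hy⟩ := (hH.le2 m iY jY c.hY c.fjY n' c.vY _).1 hx
    obtain ⟨β, rfl⟩ := V_surj c (hH.good (m + 1)) n n' e y
    rw [bd_V c hH m n n' e β] at hy
    have h2 := ((hH.good m).ex i' j0 c.hC c.fj0 n' c.vC _).2 ⟨x, rfl⟩
    rw [← hy, pull_C0 c (hH.good m) n n' e] at h2
    have h3 := hH.bi m b0 d (.of_bun c.hb0) n n' e c.vC0 c.vZ c.hb0 _ h2
    rw [← hy, h3, map_zero]
  exact inj_C c hH m n n' e x h1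

/-- The elements on `Y` are the sums of elements of `C'` and of elements that come from `S`. -/
theorem decomp (m n n' : ℤ) (e : n' = n + d) (y : (H.g m).M Y n') :
    ∃ (x : (H.g m).M C' n') (s : (H.g m).M S n),
      (H.g m).push iY c.hY.1 n' ((H.g m).push i' c.hC.1 n' x) +
        (H.g m).pull π d c.hπ n n' e s = y := by
  obtain ⟨m, rfl⟩ : ∃ m', m = m' + 1 := ⟨m - 1, by ring⟩
  obtain ⟨β, hβ⟩ := V_surj c (hH.good (m + 1)) n n' e
    ((H.g (m + 1)).pull jY 0 c.fjY n' n' (by simp) y)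
  have h1 := (hH.le1 m iY jY c.hY c.fjY n' c.vY _).2 ⟨y, rfl⟩
  rw [← hβ, bd_V c hH m n n' e β] at h1
  have h2 := congrArg ((H.g m).pull j0 0 c.fj0 n' n' (by simp)) h1
  rw [pull_C0 c (hH.good m) n n' e, map_zero] at h2
  have h3 := hH.bi m b0 d (.of_bun c.hb0) n n' e c.vC0 c.vZ c.hb0 _ h2
  obtain ⟨σ, hσ⟩ := (hH.le1 m i j c.hS c.fj n c.vS _).1 h3
  have hc : jY ≫ π = πV ≫ j := Over.OverMorphism.ext c.cV.w
  have h4 : (H.g (m + 1)).pull jY 0 c.fjY n' n' (by simp)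
      (y - (H.g (m + 1)).pull π d c.hπ n n' e σ) = 0 := by
    have h5 := (hH.good (m + 1)).pc jY π (jY ≫ π) 0 d d c.fjY c.hπ
      (.comp_open c.hY.2.1 c.hπ) n n' n' e (by simp) e c.vV c.vY c.vS rfl σ
    have h6 := (hH.good (m + 1)).pc πV j (jY ≫ π) d 0 d c.hπV c.fj
      (.comp_open c.hY.2.1 c.hπ) n n n' (by simp) e e c.vV c.vB c.vS hc.symm σ
    rw [map_sub, ← h5, h6, hσ, hβ, sub_self]
  obtain ⟨w, hw⟩ := ((hH.good (m + 1)).ex iY jY c.hY c.fjY n' c.vY _).1 h4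
  obtain ⟨z, hz⟩ := C0_surj c (hH.good (m + 1)) n n' e
    ((H.g (m + 1)).pull j0 0 c.fj0 n' n' (by simp) w)
  have h7 : (H.g (m + 1)).pull j0 0 c.fj0 n' n' (by simp)
      (w - (H.g (m + 1)).pull πC d c.hπC n n' e z) = 0 := by
    rw [map_sub, hz, sub_self]
  obtain ⟨x, hx⟩ := ((hH.good (m + 1)).ex i' j0 c.hC c.fj0 n' c.vC _).1 h7
  refine ⟨x, σ + (H.g (m + 1)).push i c.hS.1 n z, ?_⟩
  rw [hx, map_sub, hw, map_add, (hH.good (m + 1)).bc iY πC π i c.hY.1 c.hS.1 d c.hπC c.hπ n n' e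
    c.vY c.vS c.cC z]
  abel

/-- The pull-back from `B` to `V` is injective. -/
theorem V_inj (m n n' : ℤ) (e : n' = n + d) (x : (H.g m).M B n)
    (h : (H.g m).pull πV d c.hπV n n' e x = 0) : x = 0 := by
  rw [(hH.good m).pc a b πV s r d (.of_bun c.ha) (.of_bun c.hb) c.hπV n (n + r) n' rfl
    (by rw [e, c.hd]; push_cast; ring) e c.vV c.vB' c.vB c.hab x] at h
  exact hH.bi m b r (.of_bun c.hb) n (n + r) rfl c.vB' c.vB c.hb _
    (hH.bi m a s (.of_bun c.ha) (n + r) n' (by rw [e, c.hd]; push_cast; ring) c.vV c.vB' c.ha _ h)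

/-- The intersection of the elements of `C'` and of those that come from `S` is zero. -/
theorem disj (m n n' : ℤ) (e : n' = n + d) (x : (H.g m).M C' n') (s : (H.g m).M S n)
    (h : (H.g m).push iY c.hY.1 n' ((H.g m).push i' c.hC.1 n' x) +
        (H.g m).pull π d c.hπ n n' e s = 0) : x = 0 := by
  have hc : jY ≫ π = πV ≫ j := Over.OverMorphism.ext c.cV.w
  have h1 := congrArg ((H.g m).pull jY 0 c.fjY n' n' (by simp)) h
  rw [map_zero, map_add, ((hH.good m).ex iY jY c.hY c.fjY n' c.vY _).2 ⟨_, rfl⟩, zero_add] at h1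
  have h5 := (hH.good m).pc jY π (jY ≫ π) 0 d d c.fjY c.hπ
    (.comp_open c.hY.2.1 c.hπ) n n' n' e (by simp) e c.vV c.vY c.vS rfl s
  have h6 := (hH.good m).pc πV j (jY ≫ π) d 0 d c.hπV c.fj
    (.comp_open c.hY.2.1 c.hπ) n n n' (by simp) e e c.vV c.vB c.vS hc.symm s
  rw [← h5, h6] at h1
  obtain ⟨z, rfl⟩ := ((hH.good m).ex i j c.hS c.fj n c.vS _).1 (V_inj c hH m n n' e _ h1)
  rw [(hH.good m).bc iY πC π i c.hY.1 c.hS.1 d c.hπC c.hπ n n' e c.vY c.vS c.cC z, ← map_add] at h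
  obtain ⟨u, hu⟩ := (hH.le2 m iY jY c.hY c.fjY n' c.vY _).1 h
  obtain ⟨β, rfl⟩ := V_surj c (hH.good (m + 1)) n n' e u
  rw [bd_V c hH m n n' e β] at hu
  have h7 := congrArg ((H.g m).pull j0 0 c.fj0 n' n' (by simp)) hu
  rw [map_add, ((hH.good m).ex i' j0 c.hC c.fj0 n' c.vC _).2 ⟨_, rfl⟩, zero_add,
    pull_C0 c (hH.good m) n n' e, pull_C0 c (hH.good m) n n' e, ← sub_eq_zero, ← map_sub] at h7
  have h8 := sub_eq_zero.1 (hH.bi m b0 d (.of_bun c.hb0) n n' e c.vC0 c.vZ c.hb0 _ h7)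
  rw [h8] at hu
  exact inj_C c hH m n n' e x (right_eq_add.1 hu)

end

end Pool.Agent.H854.K
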