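import Pool.Agent.H854.K.WDefs
import Pool.Agent.H854.K.Seq

/-!
# The monodromy-weight conjecture for direct summands
-/

set_option autoImplicit false

namespace Pool.Agent.H854.K

variable {F : Type} [Field F]

theorem pow_comm' {V W : Type} [AddCommGroup V] [Module F V] [AddCommGroup W] [Module F W]
    (f : V →ₗ[F] W) (a : Module.End F V) (b : Module.End F W) (h : ∀ x, f (a x) = b (f x))
    (n : ℕ) (x : V) : f ((a ^ n) x) = (b ^ n) (f x) := by
  induction n with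
  | zero => rfl
  | succ n ih => rw [pow_succ', pow_succ', Module.End.mul_apply, Module.End.mul_apply, h, ih]

/-- Maps that commute with the monodromy operators preserve the monodromy filtrations. -/
theorem fil_map {ρ ρ' : WRep F} (f : ρ.V →ₗ[F] ρ'.V) (h : ∀ x, f (ρ.N x) = ρ'.N (f x)) (s : ℤ)
    {x : ρ.V} (hx : x ∈ ρ.fil s) : f x ∈ ρ'.fil s := by
  have h1 : ρ.fil s ≤ (ρ'.fil s).comap f := by
    rw [WRep.fil, Submodule.span_le]
    rintro - ⟨i, j, hij, ⟨y, rfl⟩, hi⟩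
    refine Submodule.subset_span ⟨i, j, hij, ⟨f y, (pow_comm' f _ _ h j y).symm⟩, ?_⟩
    rw [← pow_comm' f _ _ h, hi, map_zero]
  exact h1 hx

theorem WRep.IsSummandOf.isEigenvalue {ρ ρ' : WRep F} {s : ℤ} {w : ρ.W} {c : F}
    (he : ρ.IsEigenvalue s w c) {ι : ρ.W → ρ'.W} {f : ρ.V →ₗ[F] ρ'.V} {r : ρ'.V →ₗ[F] ρ.V}
    (hr : ∀ x, r (f x) = x) (hg : ∀ w x, f (ρ.g w x) = ρ'.g (ι w) (f x))
    (hN : ∀ x, f (ρ.N x) = ρ'.N (f x)) (hN' : ∀ x, r (ρ'.N x) = ρ.N (r x)) :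
    ρ'.IsEigenvalue s (ι w) c := by
  obtain ⟨x, hx, hx', hxe⟩ := he
  refine ⟨f x, fil_map f hN s hx, fun h => hx' ?_, ?_⟩
  · have h1 := fil_map r hN' (s - 1) h
    rwa [hr] at h1
  · have h1 := fil_map f hN (s - 1) hxe
    rwa [map_sub, map_smul, hg] at h1

theorem WRep.IsMonodromyPure.of_summand [CharZero F] {p : ℕ} {ρ ρ' : WRep F} {m : ℤ}
    (h : ρ'.IsMonodromyPure p m) (hs : ρ.IsSummandOf ρ') : ρ.IsMonodromyPure p m := by
  obtain ⟨ι, f, r, hv, hr, hg, hN, hN'⟩ := hs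
  intro s w c he
  rw [← hv w]
  exact h s (ι w) c (WRep.IsSummandOf.isEigenvalue he hr hg hN hN')

variable {R : Type} [Ring R] {L : Local R F} (hL : L.IsFunctorial)

include hL in
theorem Local.GradedPure.of_summand [CharZero F] {p : ℕ} {M M' : ModuleCat.{0} R}
    (h : L.GradedPure p M') (hs : IsSummand M M') : L.GradedPure p M :=
  ⟨hL.good M M' h.1 hs, fun w => (h.2 w).of_summand
    (hL.res _ _ (hL.good_gr w M' h.1) (hL.gr w M M' h.1 hs))⟩

end Pool.Agent.H854.K
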