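import Pool.Agent.H854.K.OneDefs
import Pool.Agent.H854.K.Seq
import Pool.Agent.H854.SQ.Diag

/-!
# The reduction to one dimension for each member of the sequence
-/

set_option autoImplicit false

open CategoryTheory AlgebraicGeometry

namespace Pool.Agent.H854.K

open SQ

variable {k : Type} [Field k]

theorem card_eqn (m : ℕ) : Fintype.card (Eqn m) = 4 * m ^ 3 + m ^ 2 + 2 * m := by
  simp only [Fintype.card_sum, Fintype.card_prod, Fintype.card_fin]
  ring

theorem index_eq (m : ℕ) : ((index m : ℕ) : ℤ) = ((m / 2 : ℕ) : ℤ) + Fintype.card (Eqn m) := by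
  rw [index, card_eqn, Nat.cast_add]

/-- From the members of the sequence, in one dimension for each member, to all varieties. -/
theorem reduce_one {Q : Sch k → ℤ → Prop} (hQ : SQ.Transfers Q) (hk : IsPrimeField k) {p : ℕ}
    (hp : AS.HasSimpleRoots (AS.pol k p))
    (h : ∃ᶠ m in Filter.atTop, Q (seq k p m) (index m)) (X : Sch k) (hX : IsAdm X) (d : ℤ) :
    Q X d :=
  hQ.admissible_diag hp hk (by simpa only [seq_eq, index_eq] using h) X hX d

end Pool.Agent.H854.K
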