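import Pool.Agent.H854.K.SeqDefs
import Pool.Agent.H854.K.SumDefs

/-!
# Representations of Weil groups with a monodromy operator
-/

set_option autoImplicit false

open CategoryTheory AlgebraicGeometry

noncomputable section

namespace Pool.Agent.H854.K

/-- A vector space `V` over `F` with endomorphisms `g w` for the elements `w` of the Weil group `W`
of a local field and an endomorphism `N`, the monodromy operator; `v` is the valuation of the Weil
group. -/
structure WRep (F : Type) [Field F] where
  V : ModuleCat.{0} F
  W : Type
  g : W → Module.End F V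
  v : W → ℤ
  N : Module.End F V

variable {F : Type} [Field F]

/-- The step `s` of the monodromy filtration: the sum of the intersections of the kernel of
`N ^ (s + 1 + j)` and the image of `N ^ j`, for all `j ≥ 0` with `s + 1 + j ≥ 0`. -/
def WRep.fil (ρ : WRep F) (s : ℤ) : Submodule F ρ.V :=
  Submodule.span F {x | ∃ i j : ℕ, (i : ℤ) = s + 1 + j ∧ (∃ y, (ρ.N ^ j) y = x) ∧
    (ρ.N ^ i) x = 0}

/-- The number `c` is an eigenvalue of the action of `w` on the graded piece `s` of the monodromy
filtration. -/
def WRep.IsEigenvalue (ρ : WRep F) (s : ℤ) (w : ρ.W) (c : F) : Prop :=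
  ∃ x ∈ ρ.fil s, x ∉ ρ.fil (s - 1) ∧ ρ.g w x - c • x ∈ ρ.fil (s - 1)

/-- The element `c` is algebraic over `ℚ`, and all complex conjugates of `c` have absolute value
`p ^ (a / 2)`. -/
def IsWeil [CharZero F] (p : ℕ) (c : F) (a : ℤ) : Prop :=
  IsAlgebraic ℚ c ∧ ∀ z : ℂ, Polynomial.aeval z (minpoly ℚ c) = 0 → ‖z‖ = (p : ℝ) ^ ((a : ℝ) / 2)

/-- The monodromy-weight conjecture for a representation of weight `m`: the eigenvalues of `w` on the
graded piece `s` of the monodromy filtration have weight `(m + s) v(w)`. -/
def WRep.IsMonodromyPure [CharZero F] (p : ℕ) (ρ : WRep F) (m : ℤ) : Prop :=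
  ∀ (s : ℤ) (w : ρ.W) (c : F), ρ.IsEigenvalue s w c → IsWeil p c ((m + s) * ρ.v w)

/-- The representation `ρ` of a Weil group is a direct summand of the restriction of the representation
`ρ'` of another one. -/
def WRep.IsSummandOf (ρ ρ' : WRep F) : Prop :=
  ∃ (ι : ρ.W → ρ'.W) (s : ρ.V →ₗ[F] ρ'.V) (r : ρ'.V →ₗ[F] ρ.V),
    (∀ w, ρ'.v (ι w) = ρ.v w) ∧ (∀ x, r (s x) = x) ∧
    (∀ w x, s (ρ.g w x) = ρ'.g (ι w) (s x)) ∧ (∀ x, s (ρ.N x) = ρ'.N (s x)) ∧
    ∀ x, r (ρ'.N x) = ρ.N (r x)

/-- For modules over the ring `R`, the group algebra of a global Galois group: the good modules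
(finite-dimensional continuous representations which are mixed), the graded pieces of the weight
filtration, and the restriction to the Weil group of a local field, with the monodromy operator. -/
structure Local (R : Type) [Ring R] (F : Type) [Field F] where
  Good : ModuleCat.{0} R → Prop
  gr : ℤ → ModuleCat.{0} R → ModuleCat.{0} R
  res : ModuleCat.{0} R → WRep F

variable {R : Type} [Ring R]

/-- A direct summand of a good module is good; its graded pieces and its restriction are direct
summands of those of the module; the graded pieces are good. -/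
structure Local.IsFunctorial (L : Local R F) : Prop where
  good : ∀ M M', L.Good M' → IsSummand M M' → L.Good M
  good_gr : ∀ w M, L.Good M → L.Good (L.gr w M)
  gr : ∀ w M M', L.Good M' → IsSummand M M' → IsSummand (L.gr w M) (L.gr w M')
  res : ∀ M M', L.Good M' → IsSummand M M' → (L.res M).IsSummandOf (L.res M')

/-- The module is good, and the monodromy-weight conjecture is true for all graded pieces of its
weight filtration. -/
def Local.GradedPure (L : Local R F) [CharZero F] (p : ℕ) (M : ModuleCat.{0} R) : Prop :=
  L.Good M ∧ ∀ w, (L.res (L.gr w M)).IsMonodromyPure p w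

/-- A family of representations of the Weil groups of local fields, with their weights. -/
structure Family (F : Type) [Field F] where
  Idx : Type 1
  rep : Idx → WRep F
  wt : Idx → ℤ

/-- The monodromy-weight conjecture for all members of the family. -/
def Family.IsMonodromyPure (S : Family F) [CharZero F] (p : ℕ) : Prop :=
  ∀ a, (S.rep a).IsMonodromyPure p (S.wt a)

variable {k : Type} [Field k]

/-- The properties of a homology theory on the schemes over `k` with values in the modules over `R`, of
the functors `L`, and of a family `S` of representations of Weil groups of local fields that are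
used. -/
structure IsWeighted (H : Sys k R) (L : Local R F) (S : Family F) : Prop where
  homology : H.IsHomology
  functorial : L.IsFunctorial
  /-- all homology groups are good -/
  good : ∀ (X : Sch k) (m n : ℤ), L.Good ((H.g m).M X n)
  /-- the homology of smooth proper schemes is pure -/
  pure : ∀ X, IsSmoothProper X → ∀ m n : ℤ,
    IsSummand ((H.g m).M X n) (L.gr (-m) ((H.g m).M X n))
  /-- the graded pieces are direct summands of the homology of smooth proper schemes -/
  graded : ∀ X, IsAdm X → ∀ m n w : ℤ, ∃ (X' : Sch k) (m' n' : ℤ), IsSmoothProper X' ∧ -m' = w ∧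
    IsSummand (L.gr w ((H.g m).M X n)) ((H.g m').M X' n')
  /-- the members of the family come from smooth proper schemes over `k` -/
  approx : ∀ a, ∃ (X : Sch k) (m n : ℤ), IsSmoothProper X ∧ -m = S.wt a ∧
    (S.rep a).IsSummandOf (L.res ((H.g m).M X n))
  /-- base change to the local field -/
  base : ∀ X, IsSmoothProper X → ∀ m n : ℤ, ∃ a, S.wt a = -m ∧
    (L.res ((H.g m).M X n)).IsSummandOf (S.rep a)

end Pool.Agent.H854.K
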